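import Pool.Agent.Q160.SY.Fin

/-!
# Standard Young tableaux of a square with two corner cells removed

`D n` is the `n × n` square without the cells `(1, n - 1)` and `(1, n)`. The number of standard Young tableaux of this shape is given by the
product formula, for every `n ≥ 2`.
-/

set_option autoImplicit false

namespace Pool.Agent.Results.MP_6a062b_co.TruncatedSquare

open Finset
open scoped Nat

/-- The cells `(i, j)` (row `i`, column `j`) of the `n × n` square without `(1, n - 1)` and `(1, n)`. -/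
def D (n : ℕ) : Finset (ℕ × ℕ) := (Icc 1 n ×ˢ Icc 1 n) \ {(1, n - 1), (1, n)}

/-- The standard Young tableaux of shape `D n`: bijections from `D n` to `{1, ..., n ^ 2 - 2}` that increase along rows and columns. -/
def SYT (n : ℕ) : Type :=
  {T : {c : ℕ × ℕ // c ∈ D n} → ℕ // Function.Injective T ∧ Set.range T = Set.Icc 1 (n ^ 2 - 2) ∧
    (∀ a b, b.1 = (a.1.1, a.1.2 + 1) → T a < T b) ∧ ∀ a b, b.1 = (a.1.1 + 1, a.1.2) → T a < T b}

/-- `F m = 0! 1! ... (m - 1)!`. -/
def F (m : ℕ) : ℕ := ∏ j ∈ range m, j !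

theorem card_D (n : ℕ) (hn : 2 ≤ n) : (D n).card = n ^ 2 - 2 := by
  unfold D
  rw [card_sdiff_of_subset, card_product, Nat.card_Icc, card_pair]
  · simp [pow_two]
  · intro h
    have := congrArg Prod.snd h
    simp only at this
    omega
  · intro c hc
    rw [mem_insert, mem_singleton] at hc
    rw [mem_product, mem_Icc, mem_Icc]
    rcases hc with rfl | rfl
    · simp only; omega
    · simp only; omega

theorem card_cells (n : ℕ) (hn : 2 ≤ n) : Fintype.card {c : ℕ × ℕ // c ∈ D n} = n ^ 2 - 2 := by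
  rw [Fintype.card_coe, card_D n hn]

theorem card_cells' (n : ℕ) (hn : 2 ≤ n) : Fintype.card {c : ℕ × ℕ // c ∈ Q160.SY.D n} = n ^ 2 - 2 := card_cells n hn

/-- tableaux as orderings of the cells -/
theorem card_SYT (n : ℕ) (hn : 2 ≤ n) : Nat.card (SYT n) =
    Nat.card {e : {c : ℕ × ℕ // c ∈ Q160.SY.D n} ≃ Fin (Fintype.card {c : ℕ × ℕ // c ∈ Q160.SY.D n}) //
      ∀ a b, Q160.SY.Rel n a b → e a < e b} := by
  have hc : Fintype.card {c : ℕ × ℕ // c ∈ Q160.SY.D n} = n ^ 2 - 2 := card_cells n hn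
  symm
  refine Nat.card_congr (Equiv.ofBijective (fun e => (⟨fun a => (e.1 a : ℕ) + 1, ?_, ?_, ?_, ?_⟩ : SYT n)) ⟨?_, ?_⟩)
  · intro a b h
    apply e.1.injective
    simp only at h
    exact Fin.ext (by omega)
  · ext m
    rw [Set.mem_range, Set.mem_Icc]
    constructor
    · rintro ⟨a, rfl⟩
      have := (e.1 a).2
      omega
    · rintro ⟨h1, h2⟩
      refine ⟨e.1.symm ⟨m - 1, by omega⟩, ?_⟩
      simp only [Equiv.apply_symm_apply]
      omega
  · intro a b h
    have h1 := e.2 a b (Or.inl h)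
    have h2 : (e.1 a : ℕ) < e.1 b := h1
    simp only
    omega
  · intro a b h
    have h1 := e.2 a b (Or.inr h)
    have h2 : (e.1 a : ℕ) < e.1 b := h1
    simp only
    omega
  · intro e e' h
    apply Subtype.ext
    apply Equiv.ext
    intro a
    have h1 := congrFun (congrArg Subtype.val h) a
    simp only at h1
    exact Fin.ext (by omega)
  · rintro ⟨T, hinj, hran, h1, h2⟩
    have hT : ∀ a, 1 ≤ T a ∧ T a ≤ n ^ 2 - 2 := fun a => by
      have : T a ∈ Set.Icc 1 (n ^ 2 - 2) := hran ▸ ⟨a, rfl⟩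
      exact this
    let g : {c : ℕ × ℕ // c ∈ Q160.SY.D n} → Fin (Fintype.card {c : ℕ × ℕ // c ∈ Q160.SY.D n}) :=
      fun a => ⟨T a - 1, by have := hT a; omega⟩
    have hg : Function.Bijective g := by
      rw [Fintype.bijective_iff_injective_and_card]
      refine ⟨fun a b h => ?_, (Fintype.card_fin _).symm⟩
      have h3 : T a - 1 = T b - 1 := congrArg Fin.val h
      have := hT a
      have := hT b
      exact hinj (by omega)
    refine ⟨⟨Equiv.ofBijective g hg, fun a b h => ?_⟩, ?_⟩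
    · have h3 : T a < T b := by
        rcases h with h | h
        · exact h1 a b h
        · exact h2 a b h
      change g a < g b
      have := hT a
      have := hT b
      change T a - 1 < T b - 1
      omega
    · apply Subtype.ext
      funext a
      change T a - 1 + 1 = T a
      have := hT a
      omega

theorem mem_D_two (c : ℕ × ℕ) : c ∈ D 2 ↔ c = (2, 1) ∨ c = (2, 2) := by
  have h : D 2 = {(2, 1), (2, 2)} := by decide
  rw [h, mem_insert, mem_singleton]

/-- the case `n = 2` -/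
theorem two : Nat.card (SYT 2) = 1 := by
  rw [Nat.card_eq_one_iff_unique]
  have m1 : ((2, 1) : ℕ × ℕ) ∈ D 2 := (mem_D_two _).2 (Or.inl rfl)
  have m2 : ((2, 2) : ℕ × ℕ) ∈ D 2 := (mem_D_two _).2 (Or.inr rfl)
  constructor
  · constructor
    rintro ⟨T, hinj, hran, h1, h2⟩ ⟨T', hinj', hran', h1', h2'⟩
    have key : ∀ (T : {c : ℕ × ℕ // c ∈ D 2} → ℕ), Set.range T = Set.Icc 1 (2 ^ 2 - 2) →
        (∀ a b, b.1 = (a.1.1, a.1.2 + 1) → T a < T b) → T ⟨_, m1⟩ = 1 ∧ T ⟨_, m2⟩ = 2 := by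
      intro T hran h1
      have h3 := h1 ⟨_, m1⟩ ⟨_, m2⟩ rfl
      have h4 : ∀ a, 1 ≤ T a ∧ T a ≤ 2 ^ 2 - 2 := fun a => by
        have : T a ∈ Set.Icc 1 (2 ^ 2 - 2) := hran ▸ ⟨a, rfl⟩
        exact this
      have h5 := h4 ⟨_, m1⟩
      have h6 := h4 ⟨_, m2⟩
      norm_num at h5 h6
      omega
    apply Subtype.ext
    funext ⟨c, hc⟩
    obtain ⟨h5, h6⟩ := key T hran h1
    obtain ⟨h7, h8⟩ := key T' hran' h1'
    rcases (mem_D_two c).1 hc with rfl | rfl
    · exact h5.trans h7.symm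
    · exact h6.trans h8.symm
  · refine ⟨⟨fun c => c.1.2, ?_, ?_, ?_, ?_⟩⟩
    · rintro ⟨c, hc⟩ ⟨c', hc'⟩ h
      simp only at h
      rcases (mem_D_two c).1 hc with rfl | rfl <;> rcases (mem_D_two c').1 hc' with rfl | rfl
      · rfl
      · simp at h
      · simp at h
      · rfl
    · ext m
      rw [Set.mem_range, Set.mem_Icc]
      constructor
      · rintro ⟨⟨c, hc⟩, rfl⟩
        rcases (mem_D_two c).1 hc with rfl | rfl <;> norm_num
      · rintro ⟨h1, h2⟩
        norm_num at h2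
        have h3 : m = 1 ∨ m = 2 := by omega
        rcases h3 with rfl | rfl
        · exact ⟨⟨_, m1⟩, rfl⟩
        · exact ⟨⟨_, m2⟩, rfl⟩
    · rintro ⟨a, ha⟩ ⟨b, hb⟩ h
      simp only at h ⊢
      rw [h]
      simp
    · rintro ⟨a, ha⟩ ⟨b, hb⟩ h
      exfalso
      simp only at h
      rcases (mem_D_two a).1 ha with rfl | rfl <;> rcases (mem_D_two b).1 hb with rfl | rfl <;> simp at h

open scoped ENNReal in
theorem cnt (n : ℕ) : (Nat.card {e : {c : ℕ × ℕ // c ∈ Q160.SY.D n} ≃ Fin (Fintype.card {c : ℕ × ℕ // c ∈ Q160.SY.D n}) //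
      ∀ a b, Q160.SY.Rel n a b → e a < e b} : ℝ≥0∞) = ((Fintype.card {c : ℕ × ℕ // c ∈ Q160.SY.D n})! : ℝ≥0∞) *
        Q160.SY.μc n {f | ∀ a b, Q160.SY.Rel n a b → f a < f b} :=
  Pool.Agent.Q166.SYT.t_CNT {c : ℕ × ℕ // c ∈ Q160.SY.D n} (Q160.SY.Rel n)

theorem F_succ (m : ℕ) : F (m + 1) = F m * m ! := prod_range_succ _ _

theorem F_pos (m : ℕ) : 0 < F m := prod_pos (fun j _ => Nat.factorial_pos j)

/-- **The number of standard Young tableaux of the square without two corner cells.** For every `n ≥ 2` it is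
`6 (n ^ 2 - 2)! ((3 n - 4)!) ^ 2 F_{n - 2} ^ 2 / ((6 n - 8)! (2 n - 2)! ((n - 2)!) ^ 2 F_{2 n - 4})`. -/
theorem result (n : ℕ) (hn : 2 ≤ n) : (Nat.card (SYT n) : ℚ) =
    6 * (n ^ 2 - 2)! * ((3 * n - 4)!) ^ 2 * (F (n - 2)) ^ 2 /
      ((6 * n - 8)! * (2 * n - 2)! * ((n - 2)!) ^ 2 * F (2 * n - 4)) := by
  rcases Nat.lt_or_ge n 3 with h | h
  · have h2 : n = 2 := by omega
    subst h2
    rw [two]
    norm_num [F, Nat.factorial]
  · obtain ⟨p, rfl⟩ : ∃ p, n = p + 3 := ⟨n - 3, by omega⟩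
    have h1 := cnt (p + 3)
    rw [← card_SYT (p + 3) hn, Q160.SY.volume_eq p] at h1
    have hc := card_cells' (p + 3) hn
    rw [hc] at h1
    have h3 := congrArg ENNReal.toReal h1
    rw [ENNReal.toReal_mul, ENNReal.toReal_natCast, ENNReal.toReal_natCast, ENNReal.toReal_ofReal (by positivity)] at h3
    have h4 : (Nat.card (SYT (p + 3)) : ℝ) = ((6 * ((p + 3) ^ 2 - 2)! * ((3 * (p + 3) - 4)!) ^ 2 * (F (p + 3 - 2)) ^ 2 /
      ((6 * (p + 3) - 8)! * (2 * (p + 3) - 2)! * ((p + 3 - 2)!) ^ 2 * F (2 * (p + 3) - 4)) : ℚ) : ℝ) := by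
      rw [h3]
      push_cast
      have e1 : 3 * (p + 3) - 4 = 3 * p + 5 := by omega
      have e3 : 6 * (p + 3) - 8 = 6 * p + 10 := by omega
      have e4 : 2 * (p + 3) - 2 = 2 * p + 4 := by omega
      have e5 : 2 * (p + 3) - 4 = 2 * p + 2 := by omega
      have e6 : p + 3 + p = 2 * p + 3 := by omega
      have hF : ∀ m, Q160.SY.F m = F m := fun m => rfl
      rw [e1, e3, e4, e5, e6, hF, hF, F_succ p, F_succ (2 * p + 2)]
      have f1 : ((2 * p + 4)! : ℝ) = (2 * p + 4) * (2 * p + 3) * (2 * p + 2)! := by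
        rw [show 2 * p + 4 = (2 * p + 2) + 1 + 1 by ring, Nat.factorial_succ, Nat.factorial_succ]
        push_cast
        ring
      have f2 : ((p + 1)! : ℝ) = (p + 1) * p ! := by
        rw [Nat.factorial_succ]
        push_cast
        ring
      push_cast
      rw [f1, f2]
      have g1 : (F p : ℝ) ≠ 0 := by exact_mod_cast (F_pos p).ne'
      have g2 : (F (2 * p + 2) : ℝ) ≠ 0 := by exact_mod_cast (F_pos _).ne'
      have g3 : ((2 * p + 2)! : ℝ) ≠ 0 := by exact_mod_cast (Nat.factorial_pos _).ne'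
      have g4 : (p ! : ℝ) ≠ 0 := by exact_mod_cast (Nat.factorial_pos _).ne'
      have g5 : ((6 * p + 10)! : ℝ) ≠ 0 := by exact_mod_cast (Nat.factorial_pos _).ne'
      have g6 : ((3 * p + 5)! : ℝ) ≠ 0 := by exact_mod_cast (Nat.factorial_pos _).ne'
      field_simp
      ring
    exact_mod_cast h4

end Pool.Agent.Results.MP_6a062b_co.TruncatedSquare
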